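import Pool.Agent.R3M.Stmts

/-!
# R3M: discrete Green on rectangles and triangles (modules GRE, TRG)
-/

set_option autoImplicit false

namespace Pool.Agent.R3M.H8

open Pool.Agent.R3M

theorem gre : GreStmt := by
  intro β φ A p q h
  induction p with
  | zero => simp
  | succ p ih =>
    have ih' := ih (fun i j hi hj => h i j (by omega) hj)
    have key : ∀ q' : ℕ, q' ≤ q →
        φ (A p 0) (A (p + 1) 0) + (∑ j ∈ Finset.range q', φ (A (p + 1) j) (A (p + 1) (j + 1))) =
          (∑ j ∈ Finset.range q', φ (A p j) (A p (j + 1))) + φ (A p q') (A (p + 1) q') := by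
      intro q' hq'
      induction q' with
      | zero => simp
      | succ r ihr =>
        have h1 := ihr (by omega)
        have h2 := h p r (by omega) (by omega)
        rw [Finset.sum_range_succ, Finset.sum_range_succ]
        linarith
    have h3 := key q le_rfl
    rw [Finset.sum_range_succ, Finset.sum_range_succ]
    linarith

theorem trg : TrgStmt := by
  intro β φ A l h1 h2
  induction l with
  | zero => simp
  | succ l ih =>
    have ih' := ih (fun i hi => h1 i (by omega)) (fun i j hij hj => h2 i j hij (by omega))
    have key : ∀ k : ℕ, k ≤ l →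
        φ (A 0 l) (A 0 (l + 1)) +
            (∑ i ∈ Finset.range k, φ (A i (l + 1)) (A (i + 1) (l + 1))) =
          (∑ i ∈ Finset.range k, φ (A i l) (A (i + 1) l)) + φ (A k l) (A k (l + 1)) := by
      intro k hk
      induction k with
      | zero => simp
      | succ r ihr =>
        have h3 := ihr (by omega)
        have h4 := h2 r l (by omega) (by omega)
        rw [Finset.sum_range_succ, Finset.sum_range_succ]
        linarith
    have h3 := key l le_rfl
    have h4 := h1 l (by omega)
    rw [Finset.sum_range_succ, Finset.sum_range_succ (fun j => φ (A 0 j) (A 0 (j + 1))),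
      Finset.sum_range_succ (fun i => φ (A i (l + 1)) (A (i + 1) (l + 1)))]
    linarith

end Pool.Agent.R3M.H8
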