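import Pool.Agent.R3M.Kit
import Pool.Agent.Helper8_R3M.GRE

/-!
# R3M: grid, strips and triangles (modules CGR, CST, DST, TTR)
-/

set_option autoImplicit false

namespace Pool.Agent.R3M.H8

open Pool.Agent.R3M Pool.Agent.R3M.Kit

/-- The index sets of the first cycle are in a legal mode. -/
theorem mo1_x1 (a : ℕ) (ha : 1 ≤ a) (σ : Bool) (i : ℕ) : Mo1 a i (X1 a σ i) (RX1 a σ i) := by
  rcases Nat.eq_zero_or_pos i with hi | hi
  · left
    refine ⟨hi, ?_⟩
    cases σ with
    | false => exact ⟨0, by omega, by simp [X1], by simp [RX1, hi]⟩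
    | true =>
      refine ⟨a - 1, by omega, by simp [X1, hi], ?_⟩
      have : a - 1 + 1 = a := by omega
      simp [RX1, this]
  · right
    refine ⟨hi, ?_⟩
    have h0 : i ≠ 0 := by omega
    cases σ with
    | false => left; simp [X1, RX1, h0]
    | true => right; simp [X1, RX1, h0]

/-- The index sets of the second cycle are in a legal mode. -/
theorem mo2_y2 (b : ℕ) (hb : 1 ≤ b) (l : ℕ) (τ : Bool) (j : ℕ) (hj : j ≤ l) :
    Mo2 b l j (Y2 b l τ j) (RY2 b l τ j) := by
  by_cases h : j = l
  · left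
    refine ⟨h, ?_⟩
    cases τ with
    | false => exact ⟨0, by omega, by simp [Y2], by simp [RY2, h]⟩
    | true =>
      refine ⟨b - 1, by omega, by simp [Y2, h], ?_⟩
      have : b - 1 + 1 = b := by omega
      simp [RY2, this]
  · right
    refine ⟨by omega, ?_⟩
    cases τ with
    | false => left; simp [Y2, RY2, h]
    | true => right; simp [Y2, RY2, h]

theorem mo1_range (a t : ℕ) (ht : t < a) :
    Mo1 a 0 (Finset.range t) (Finset.range (t + 1)) := Or.inl ⟨rfl, t, ht, rfl, rfl⟩

theorem mo2_range (b l u : ℕ) (hu : u < b) :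
    Mo2 b l l (Finset.range u) (Finset.range (u + 1)) := Or.inl ⟨rfl, u, hu, rfl, rfl⟩

section states

variable (hvst : VstStmt) {α : Type} [DecidableEq α] {M N : Mat α} {n : ℕ} {P S : Finset α}
  {a l b : ℕ} {g d f z h e : ℕ → α}

include hvst

theorem ci_gg (hS : Setup M N n S) (hP : CI M N (n + 1) P) (hc : Conf M N P S a l b g d f z h e)
    {t u : ℕ} (ht : t < a) (hu : u < b) : CI M N n (GG P l g d f z h e t u) :=
  hvst α M N n P S a l b g d f z h e 0 l _ _ _ _ hS hP hc (Nat.zero_le _) le_rfl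
    (mo1_range a t ht) (mo2_range b l u hu)

theorem ci_cc (hS : Setup M N n S) (hP : CI M N (n + 1) P) (hc : Conf M N P S a l b g d f z h e)
    (τ : Bool) {t j : ℕ} (ht : t < a) (hj : j ≤ l) : CI M N n (CC P l b g d f z h e τ t j) :=
  hvst α M N n P S a l b g d f z h e 0 j _ _ _ _ hS hP hc (Nat.zero_le _) hj
    (mo1_range a t ht) (mo2_y2 b (by have := hc.c2.two; omega) l τ j hj)

theorem ci_dd (hS : Setup M N n S) (hP : CI M N (n + 1) P) (hc : Conf M N P S a l b g d f z h e)
    (σ : Bool) {i u : ℕ} (hi : i ≤ l) (hu : u < b) : CI M N n (DD P a l g d f z h e σ i u) :=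
  hvst α M N n P S a l b g d f z h e i l _ _ _ _ hS hP hc hi le_rfl
    (mo1_x1 a (by have := hc.c1.two; omega) σ i) (mo2_range b l u hu)

theorem ci_tt (hS : Setup M N n S) (hP : CI M N (n + 1) P) (hc : Conf M N P S a l b g d f z h e)
    (σ τ : Bool) {i j : ℕ} (hij : i ≤ j) (hj : j ≤ l) :
    CI M N n (TT P a l b g d f z h e σ τ i j) :=
  hvst α M N n P S a l b g d f z h e i j _ _ _ _ hS hP hc hij hj
    (mo1_x1 a (by have := hc.c1.two; omega) σ i) (mo2_y2 b (by have := hc.c2.two; omega) l τ j hj)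

end states

theorem cgr (hvst : VstStmt) (hadj : AdjStmt) : CgrStmt := by
  intro α _ M N n P S a l b g d f z h e φ hS hP hc hcl
  obtain ⟨-, -, -, -, -, -, -, n1, n2⟩ := hadj α M N P S a l b g d f z h e hc
  refine gre (Finset α) φ (fun t u => GG P l g d f z h e t u) (a - 1) (b - 1) ?_
  intro t u ht hu
  exact clo_sq hcl (ci_gg hvst hS hP hc (by omega) (by omega))
    (ci_gg hvst hS hP hc (by omega) (by omega)) (ci_gg hvst hS hP hc (by omega) (by omega))
    (ci_gg hvst hS hP hc (by omega) (by omega)) (n1 t u (by omega) (by omega))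
    (n2 (t + 1) u (by omega) (by omega)) (n2 t u (by omega) (by omega))
    (n1 t (u + 1) (by omega) (by omega))

theorem cst (hvst : VstStmt) (hadj : AdjStmt) : CstStmt := by
  intro α _ M N n P S a l b g d f z h e φ τ hS hP hc hcl
  obtain ⟨-, -, -, n1, n2, -, -, -, -⟩ := hadj α M N P S a l b g d f z h e hc
  refine gre (Finset α) φ (fun t j => CC P l b g d f z h e τ t j) (a - 1) l ?_
  intro t j ht hj
  exact clo_sq hcl (ci_cc hvst hS hP hc τ (by omega) (by omega))
    (ci_cc hvst hS hP hc τ (by omega) (by omega)) (ci_cc hvst hS hP hc τ (by omega) (by omega))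
    (ci_cc hvst hS hP hc τ (by omega) (by omega)) (n1 τ t j (by omega) (by omega))
    (n2 τ (t + 1) j (by omega) (by omega)) (n2 τ t j (by omega) (by omega))
    (n1 τ t (j + 1) (by omega) (by omega))

theorem dst (hvst : VstStmt) (hadj : AdjStmt) : DstStmt := by
  intro α _ M N n P S a l b g d f z h e φ σ hS hP hc hcl
  obtain ⟨-, -, -, -, -, n2, n1, -, -⟩ := hadj α M N P S a l b g d f z h e hc
  refine gre (Finset α) φ (fun i u => DD P a l g d f z h e σ i u) l (b - 1) ?_
  intro i u hi hu
  exact clo_sq hcl (ci_dd hvst hS hP hc σ (by omega) (by omega))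
    (ci_dd hvst hS hP hc σ (by omega) (by omega)) (ci_dd hvst hS hP hc σ (by omega) (by omega))
    (ci_dd hvst hS hP hc σ (by omega) (by omega)) (n1 σ i u (by omega) (by omega))
    (n2 σ (i + 1) u (by omega) (by omega)) (n2 σ i u (by omega) (by omega))
    (n1 σ i (u + 1) (by omega) (by omega))

theorem ttr (hvst : VstStmt) (hadj : AdjStmt) : TtrStmt := by
  intro α _ M N n P S a l b g d f z h e φ σ τ hS hP hc hcl
  obtain ⟨n1, n2, n3, -, -, -, -, -, -⟩ := hadj α M N P S a l b g d f z h e hc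
  have hdiag : ∀ k : ℕ, k ≤ l →
      (∑ i ∈ Finset.range k, φ (TT P a l b g d f z h e σ τ i i)
        (TT P a l b g d f z h e σ τ (i + 1) (i + 1))) =
      φ (TT P a l b g d f z h e σ τ 0 0) (TT P a l b g d f z h e σ τ k k) := by
    intro k hk
    induction k with
    | zero =>
      rw [Finset.sum_range_zero]
      exact (clo_self hcl (ci_tt hvst hS hP hc σ τ le_rfl (Nat.zero_le _))).symm
    | succ k ih =>
      rw [Finset.sum_range_succ, ih (by omega)]
      exact clo_tri hcl (ci_tt hvst hS hP hc σ τ le_rfl (Nat.zero_le _))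
        (ci_tt hvst hS hP hc σ τ le_rfl (by omega)) (ci_tt hvst hS hP hc σ τ le_rfl (by omega))
        (n3 σ τ 0 k (by omega) (by omega)) (n3 σ τ k (k + 1) (by omega) (by omega))
        (n3 σ τ 0 (k + 1) (by omega) (by omega))
  rw [← hdiag l le_rfl]
  refine trg (Finset α) φ (fun i j => TT P a l b g d f z h e σ τ i j) l ?_ ?_
  · intro i hi
    exact (clo_tri hcl (ci_tt hvst hS hP hc σ τ le_rfl (by omega))
      (ci_tt hvst hS hP hc σ τ (by omega) (by omega))
      (ci_tt hvst hS hP hc σ τ le_rfl (by omega))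
      (n1 σ τ i i le_rfl hi) (n2 σ τ i (i + 1) (by omega) (by omega))
      (n3 σ τ i (i + 1) (by omega) (by omega))).symm
  · intro i j hij hj
    exact clo_sq hcl (ci_tt hvst hS hP hc σ τ (by omega) (by omega))
      (ci_tt hvst hS hP hc σ τ (by omega) (by omega))
      (ci_tt hvst hS hP hc σ τ (by omega) (by omega))
      (ci_tt hvst hS hP hc σ τ (by omega) (by omega))
      (n1 σ τ i j (by omega) hj) (n2 σ τ i (j + 1) (by omega) (by omega))
      (n2 σ τ i j hij (by omega)) (n1 σ τ (i + 1) j (by omega) hj)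

end Pool.Agent.R3M.H8
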