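import Pool.Agent.Helper8_R3M.Grid

/-!
# R3M: the commutator (module COM)
-/

set_option autoImplicit false

namespace Pool.Agent.R3M.H8

open Pool.Agent.R3M Pool.Agent.R3M.Kit

section ids

variable {α : Type} [DecidableEq α] (P : Finset α) (a l b : ℕ) (g d f z h e : ℕ → α)

theorem cc_zero (τ : Bool) (j : ℕ) :
    CC P l b g d f z h e τ 0 j = TT P a l b g d f z h e false τ 0 j := by
  simp [CC, TT, X1, RX1]

theorem cc_last (ha : 1 ≤ a) (τ : Bool) (j : ℕ) :
    CC P l b g d f z h e τ (a - 1) j = TT P a l b g d f z h e true τ 0 j := by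
  have : a - 1 + 1 = a := by omega
  simp [CC, TT, X1, RX1, this]

theorem dd_zero (σ : Bool) (i : ℕ) :
    DD P a l g d f z h e σ i 0 = TT P a l b g d f z h e σ false i l := by
  simp [DD, TT, Y2, RY2]

theorem dd_last (hb : 1 ≤ b) (σ : Bool) (i : ℕ) :
    DD P a l g d f z h e σ i (b - 1) = TT P a l b g d f z h e σ true i l := by
  have : b - 1 + 1 = b := by omega
  simp [DD, TT, Y2, RY2, this]

theorem gg_cc_zero (t : ℕ) :
    GG P l g d f z h e t 0 = CC P l b g d f z h e false t l := by
  simp [GG, CC, Y2, RY2]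

theorem gg_cc_last (hb : 1 ≤ b) (t : ℕ) :
    GG P l g d f z h e t (b - 1) = CC P l b g d f z h e true t l := by
  have : b - 1 + 1 = b := by omega
  simp [GG, CC, Y2, RY2, this]

theorem gg_dd_zero (u : ℕ) :
    GG P l g d f z h e 0 u = DD P a l g d f z h e false 0 u := by
  simp [GG, DD, X1, RX1]

theorem gg_dd_last (ha : 1 ≤ a) (u : ℕ) :
    GG P l g d f z h e (a - 1) u = DD P a l g d f z h e true 0 u := by
  have : a - 1 + 1 = a := by omega
  simp [GG, DD, X1, RX1, this]

end ids

theorem com (hvst : VstStmt) (hadj : AdjStmt) : ComStmt := by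
  intro α _ M N n P S a l b g d f z h e φ hS hP hc hcl
  have ha : 1 ≤ a := by have := hc.c1.two; omega
  have hb : 1 ≤ b := by have := hc.c2.two; omega
  obtain ⟨-, -, n3, -, -, -, -, -, -⟩ := hadj α M N P S a l b g d f z h e hc
  have anti : ∀ σ τ, φ (TT P a l b g d f z h e σ τ l l) (TT P a l b g d f z h e σ τ 0 0) =
      - φ (TT P a l b g d f z h e σ τ 0 0) (TT P a l b g d f z h e σ τ l l) := fun σ τ =>
    clo_anti hcl (ci_tt hvst hS hP hc σ τ le_rfl (Nat.zero_le _))
      (ci_tt hvst hS hP hc σ τ le_rfl le_rfl) (n3 σ τ 0 l (Nat.zero_le _) le_rfl)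
  have e1 := cgr hvst hadj α M N n P S a l b g d f z h e φ hS hP hc hcl
  have e2 := fun τ => cst hvst hadj α M N n P S a l b g d f z h e φ τ hS hP hc hcl
  have e3 := fun σ => dst hvst hadj α M N n P S a l b g d f z h e φ σ hS hP hc hcl
  have e4 := fun σ τ => ttr hvst hadj α M N n P S a l b g d f z h e φ σ τ hS hP hc hcl
  simp only [gg_cc_zero P l b g d f z h e, gg_cc_last P l b g d f z h e hb,
    gg_dd_zero P a l g d f z h e, gg_dd_last P a l g d f z h e ha] at e1
  simp only [cc_zero P a l b g d f z h e, cc_last P a l b g d f z h e ha] at e2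
  simp only [dd_zero P a l b g d f z h e, dd_last P a l b g d f z h e hb] at e3
  have f2 := e2 false
  have f2' := e2 true
  have f3 := e3 false
  have f3' := e3 true
  have f4 := e4 false false
  have f5 := e4 false true
  have f6 := e4 true false
  have f7 := e4 true true
  have g1 := anti true true
  have g2 := anti false false
  rw [g1, g2]
  linarith

end Pool.Agent.R3M.H8
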